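import Pool.Agent.N303.LS.Stm

/-!
# Project LS (helper303), part EN (helper655): weighted energy estimate for the wave equation
-/

set_option autoImplicit false

namespace Pool.Agent.N655.LS

open MeasureTheory Pool.Agent.N303.LS
open scoped ENNReal FourierTransform RealInnerProductSpace SchwartzMap

section

variable {d : ℕ}

theorem fou_cont (g : 𝓢(E d, ℂ)) : Continuous (𝓕 (g : E d → ℂ)) := by
  rw [← SchwartzMap.fourier_coe]
  exact (𝓕 g).continuous

theorem fou_int (g : 𝓢(E d, ℂ)) : Integrable (𝓕 (g : E d → ℂ)) := by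
  rw [← SchwartzMap.fourier_coe]
  exact (𝓕 g).integrable

theorem inv_fou (g : 𝓢(E d, ℂ)) : inv (𝓕 (g : E d → ℂ)) = (g : E d → ℂ) := by
  have h := g.continuous.fourierInv_fourier_eq g.integrable (fou_int g)
  funext x
  have h1 : inv (𝓕 (g : E d → ℂ)) x = 𝓕⁻ (𝓕 (g : E d → ℂ)) x := by
    rw [Real.fourierInv_eq']
    unfold inv
    refine integral_congr_ae (Filter.Eventually.of_forall fun ξ => ?_)
    simp only [smul_eq_mul]
    rw [real_inner_comm]
  rw [h1, h]

theorem inv_zero' : inv (fun _ : E d => (0 : ℂ)) = fun _ => 0 := by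
  funext x
  unfold inv
  simp

theorem nrg_zero (M : ℕ) (z : E d) : nrg M (fun _ : E d => (0 : ℂ)) z = 0 := by
  unfold nrg
  simp

theorem cs_zero (ξ : E d) : cs 0 ξ = 1 := by
  unfold cs
  simp

theorem sn_zero (ξ : E d) : sn 0 ξ = 0 := by
  unfold sn
  simp

/-- the Cauchy-Schwarz inequality -/
theorem cauchy {X : Type} [MeasurableSpace X] (μ : Measure X) (a : X → ℝ≥0∞)
    (ha : AEMeasurable a μ) :
    (∫⁻ s, a s ∂μ) ^ (2 : ℝ) ≤ μ Set.univ * ∫⁻ s, a s ^ (2 : ℝ) ∂μ := by
  have h := ENNReal.lintegral_mul_le_Lp_mul_Lq μ Real.HolderConjugate.two_two ha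
    (aemeasurable_const (b := (1 : ℝ≥0∞)))
  simp only [Pi.mul_apply, mul_one, ENNReal.one_rpow, lintegral_const, one_mul] at h
  have h1 := ENNReal.rpow_le_rpow h (by norm_num : (0 : ℝ) ≤ 2)
  rw [ENNReal.mul_rpow_of_nonneg _ _ (by norm_num : (0 : ℝ) ≤ 2), ← ENNReal.rpow_mul,
    ← ENNReal.rpow_mul] at h1
  norm_num at h1
  rw [mul_comm]
  exact_mod_cast h1

theorem sn_eq {t : ℝ} {ξ : E d} (hξ : ξ ≠ 0) : sn t ξ = ∫ s in (0 : ℝ)..t, cs s ξ := by
  have h0 : ‖ξ‖ ≠ 0 := norm_ne_zero_iff.2 hξ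
  have h1 : 2 * Real.pi * ‖ξ‖ ≠ 0 := by
    have := Real.pi_ne_zero
    positivity
  unfold sn cs
  rw [intervalIntegral.integral_ofReal]
  congr 1
  have h2 : ∀ s ∈ Set.uIcc 0 t, HasDerivAt
      (fun s : ℝ => Real.sin (2 * Real.pi * s * ‖ξ‖) / (2 * Real.pi * ‖ξ‖))
      (Real.cos (2 * Real.pi * s * ‖ξ‖)) s := by
    intro s _
    have h3 : HasDerivAt (fun s : ℝ => 2 * Real.pi * s * ‖ξ‖) (2 * Real.pi * ‖ξ‖) s := by
      have := ((hasDerivAt_id s).const_mul (2 * Real.pi)).mul_const ‖ξ‖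
      simpa using this
    have h4 := (h3.sin).div_const (2 * Real.pi * ‖ξ‖)
    rwa [mul_div_cancel_right₀ _ h1] at h4
  have hc : Continuous fun s : ℝ => Real.cos (2 * Real.pi * s * ‖ξ‖) := by fun_prop
  rw [intervalIntegral.integral_eq_sub_of_hasDerivAt h2 (hc.intervalIntegrable _ _)]
  simp

theorem cont_F (g : 𝓢(E d, ℂ)) (x : E d) : Continuous fun p : ℝ × E d =>
    Complex.exp (((2 * Real.pi * ⟪x, p.2⟫ : ℝ) : ℂ) * Complex.I) *
      (cs p.1 p.2 * 𝓕 (g : E d → ℂ) p.2) := by
  have h1 : Continuous fun p : ℝ × E d => (2 * Real.pi * ⟪x, p.2⟫ : ℝ) :=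
    continuous_const.mul (continuous_const.inner continuous_snd)
  have h2 : Continuous fun p : ℝ × E d => Real.cos (2 * Real.pi * p.1 * ‖p.2‖) := by fun_prop
  exact (Complex.continuous_exp.comp ((Complex.continuous_ofReal.comp h1).mul
    continuous_const)).mul ((Complex.continuous_ofReal.comp h2).mul
      ((fou_cont g).comp continuous_snd))

/-- Duhamel -/
theorem inv_sn [Nontrivial (E d)] (g : 𝓢(E d, ℂ)) {t : ℝ} (ht : 0 ≤ t) (x : E d) :
    inv (fun ξ => sn t ξ * 𝓕 (g : E d → ℂ) ξ) x =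
      ∫ s in Set.Ioc 0 t, inv (fun ξ => cs s ξ * 𝓕 (g : E d → ℂ) ξ) x := by
  have hint : Integrable (Function.uncurry fun (s : ℝ) (ξ : E d) =>
      Complex.exp (((2 * Real.pi * ⟪x, ξ⟫ : ℝ) : ℂ) * Complex.I) *
        (cs s ξ * 𝓕 (g : E d → ℂ) ξ)) ((volume.restrict (Set.Ioc 0 t)).prod volume) := by
    refine ((fou_int g).comp_snd (volume.restrict (Set.Ioc 0 t))).mono
      (cont_F g x).aestronglyMeasurable (Filter.Eventually.of_forall ?_)
    rintro ⟨s, ξ⟩
    simp only [Function.uncurry_apply_pair]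
    rw [norm_mul, norm_mul, Complex.norm_exp_ofReal_mul_I, one_mul]
    have h1 : ‖cs s ξ‖ ≤ 1 := by
      unfold cs
      rw [Complex.norm_real]
      exact Real.abs_cos_le_one _
    exact mul_le_of_le_one_left (norm_nonneg _) h1
  have hswap := integral_integral_swap hint
  unfold inv
  rw [hswap]
  refine integral_congr_ae ?_
  have hae : ∀ᵐ ξ : E d, ξ ≠ 0 := by
    have : (volume : Measure (E d)) {0} = 0 := measure_singleton 0
    rw [ae_iff]
    simp
  filter_upwards [hae] with ξ hξ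
  rw [integral_const_mul, integral_mul_const, sn_eq hξ, intervalIntegral.integral_of_le ht]

end

theorem t_en (hA : S_ENA) (hB : S_ENB) : S_EN := by
  intro d M hdM
  refine ⟨4 * Real.exp (2 * M), by positivity, ?_⟩
  intro g z t ht0 ht2 k
  obtain ⟨B, Dφ, DA, hac⟩ := hA d g
  have hφ0 : (inv fun ξ => sym (Sum.inr true) 0 ξ * 𝓕 (g : E d → ℂ) ξ) = (g : E d → ℂ) := by
    rw [← inv_fou g]
    congr 1
    funext ξ
    simp only [sym]
    rw [cs_zero, one_mul, inv_fou]
  have hA0 : ∀ j : Fin d, (inv fun ξ => sym (Sum.inl j) 0 ξ * 𝓕 (g : E d → ℂ) ξ) =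
      fun _ => (0 : ℂ) := by
    intro j
    rw [← inv_zero']
    congr 1
    funext ξ
    simp only [sym]
    rw [sn_zero, mul_zero, zero_mul]
  have key : ∀ s : ℝ, 0 ≤ s → s ≤ 2 →
      nrg M (inv fun ξ => sym (Sum.inr true) s ξ * 𝓕 (g : E d → ℂ) ξ) z +
        ∑ j : Fin d, nrg M (inv fun ξ => sym (Sum.inl j) s ξ * 𝓕 (g : E d → ℂ) ξ) z ≤
      ENNReal.ofReal (Real.exp (2 * M)) * nrg M g z := by
    intro s hs0 hs2
    have h := hB d M hdM B _ _ Dφ DA hac z s hs0
    simp only [hφ0, hA0, nrg_zero, Finset.sum_const_zero, add_zero] at h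
    have hM : (0 : ℝ) ≤ M := Nat.cast_nonneg M
    have h' : Real.exp (M * s) ≤ Real.exp (2 * M) := Real.exp_le_exp.2 (by nlinarith)
    exact h.trans (mul_le_mul_left (ENNReal.ofReal_le_ofReal h') _)
  have hle : ENNReal.ofReal (Real.exp (2 * M)) * nrg M g z ≤
      ENNReal.ofReal (4 * Real.exp (2 * M)) * nrg M g z := by
    gcongr
    have := Real.exp_pos (2 * (M : ℝ))
    linarith
  rcases k with j | b
  · refine le_trans ?_ ((key t ht0 ht2).trans hle)
    refine le_trans ?_ le_add_self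
    exact Finset.single_le_sum
      (f := fun j => nrg M (inv fun ξ => sym (Sum.inl j) t ξ * 𝓕 (g : E d → ℂ) ξ) z)
      (fun _ _ => bot_le) (Finset.mem_univ j)
  · cases b
    swap
    · exact le_trans le_self_add ((key t ht0 ht2).trans hle)
    · -- Duhamel
      rcases Nat.eq_zero_or_pos d with hd | hd
      · subst hd
        have h0 : (inv fun ξ : E 0 => sym (Sum.inr false) t ξ * 𝓕 (g : E 0 → ℂ) ξ) =
            fun _ => (0 : ℂ) := by
          rw [← inv_zero']
          congr 1
          funext ξ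
          have hξ : ξ = 0 := Subsingleton.elim _ _
          simp only [sym]
          unfold sn
          rw [hξ]
          simp
        rw [h0, nrg_zero]
        exact bot_le
      · have : Nonempty (Fin d) := ⟨⟨0, hd⟩⟩
        have hnt : Nontrivial (E d) := inferInstance
        have hcφ := hac.cφ
        have hfun : (fun ξ : E d => sym (Sum.inr false) t ξ * 𝓕 (g : E d → ℂ) ξ) =
            fun ξ => sn t ξ * 𝓕 (g : E d → ℂ) ξ := rfl
        rw [hfun]
        obtain ⟨φ, hφ⟩ : ∃ φ : ℝ → E d → ℂ,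
            φ = fun s => inv fun ξ => sym (Sum.inr true) s ξ * 𝓕 (g : E d → ℂ) ξ := ⟨_, rfl⟩
        have hcont : Continuous fun p : ℝ × E d => φ p.1 p.2 := by rw [hφ]; exact hcφ
        have hpt : ∀ x : E d, ‖inv (fun ξ => sn t ξ * 𝓕 (g : E d → ℂ) ξ) x‖ₑ ^ (2 : ℝ) ≤
            ENNReal.ofReal t * ∫⁻ s in Set.Ioc 0 t, ‖φ s x‖ₑ ^ (2 : ℝ) := by
          intro x
          have h1 : inv (fun ξ => sn t ξ * 𝓕 (g : E d → ℂ) ξ) x =
              ∫ s in Set.Ioc 0 t, φ s x := by
            rw [inv_sn g ht0 x, hφ]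
            rfl
          rw [h1]
          have h2 : ‖∫ s in Set.Ioc 0 t, φ s x‖ₑ ≤ ∫⁻ s in Set.Ioc 0 t, ‖φ s x‖ₑ :=
            enorm_integral_le_lintegral_enorm _
          have h3 : Continuous fun s => φ s x := hcont.comp (continuous_id.prodMk continuous_const)
          refine (ENNReal.rpow_le_rpow h2 (by norm_num)).trans ?_
          refine (cauchy _ _ h3.enorm.measurable.aemeasurable).trans ?_
          rw [Measure.restrict_apply_univ, Real.volume_Ioc, sub_zero]
        have hw : Measurable fun x : E d => ENNReal.ofReal (W M (x - z)) := by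
          unfold W
          fun_prop
        have hmeas : Measurable (Function.uncurry fun (x : E d) (s : ℝ) =>
            ‖φ s x‖ₑ ^ (2 : ℝ) * ENNReal.ofReal (W M (x - z))) := by
          have h1 : Continuous fun p : E d × ℝ => φ p.2 p.1 :=
            hcont.comp (continuous_snd.prodMk continuous_fst)
          exact (h1.enorm.measurable.pow_const _).mul (hw.comp measurable_fst)
        have hswap := lintegral_lintegral_swap (μ := (volume : Measure (E d)))
          (ν := volume.restrict (Set.Ioc 0 t)) hmeas.aemeasurable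
        unfold nrg
        calc ∫⁻ x : E d, ‖inv (fun ξ => sn t ξ * 𝓕 (g : E d → ℂ) ξ) x‖ₑ ^ (2 : ℝ) *
              ENNReal.ofReal (W M (x - z))
            ≤ ∫⁻ x : E d, ENNReal.ofReal t * ∫⁻ s in Set.Ioc 0 t,
                ‖φ s x‖ₑ ^ (2 : ℝ) * ENNReal.ofReal (W M (x - z)) := by
              refine lintegral_mono fun x => ?_
              rw [lintegral_mul_const' _ _ ENNReal.ofReal_ne_top, ← mul_assoc]
              exact mul_le_mul_left (hpt x) _
          _ = ENNReal.ofReal t * ∫⁻ s in Set.Ioc 0 t, nrg M (φ s) z := by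
              rw [lintegral_const_mul' _ _ ENNReal.ofReal_ne_top, hswap]
              rfl
          _ ≤ ENNReal.ofReal t * ∫⁻ _s in Set.Ioc 0 t,
                ENNReal.ofReal (Real.exp (2 * M)) * nrg M g z := by
              refine mul_le_mul_right (setLIntegral_mono measurable_const fun s hs => ?_) _
              rw [hφ]
              exact le_trans le_self_add (key s hs.1.le (hs.2.trans ht2))
          _ = ENNReal.ofReal t * (ENNReal.ofReal (Real.exp (2 * M)) * nrg M g z *
                ENNReal.ofReal t) := by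
              rw [setLIntegral_const, Real.volume_Ioc, sub_zero]
          _ = ENNReal.ofReal (t * t * Real.exp (2 * M)) * nrg M g z := by
              rw [ENNReal.ofReal_mul (mul_nonneg ht0 ht0), ENNReal.ofReal_mul ht0]
              ring
          _ ≤ ENNReal.ofReal (4 * Real.exp (2 * M)) * nrg M g z := by
              gcongr
              nlinarith

end Pool.Agent.N655.LS
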